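import Pool.Agent.H33.Nim

set_option autoImplicit false

namespace Pool.Agent.Results.MP_68925f_co.Q2

open Pool.Agent.H33.Nim

/-- The rules fix exactly one nim product, and its multiplication table is not 2-regular. -/
theorem result : ∃ op : ℕ → ℕ → ℕ, IsNimProduct op ∧ (∀ op', IsNimProduct op' → op' = op) ∧
    ¬ IsTwoRegularArray (fun p => (op p.1 p.2 : ℤ)) :=
  ⟨nim, isNim_nim, fun _ h => h.unique isNim_nim, not_regular_array isNim_nim⟩

end Pool.Agent.Results.MP_68925f_co.Q2
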